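import Pool.Agent.TH132.W.Sch

/-!
# The unramified Milnor question has a negative answer in degree two

There is a smooth affine integral surface `X` over the field `k = 𝔽₅(T)` and an unramified class
`α ∈ K₂(k(X))`, so `α ∈ K²_{M,ur}(X)`, such that no class `w ∈ I²_ur(X) = I²(k(X)) ∩ W_ur(X)` is
congruent to the Pfister class of `α` modulo `I³(k(X))`.
-/

noncomputable section

namespace Pool.Agent.Results.MP_a9963e_ag.UnramifiedMilnor

open AlgebraicGeometry Polynomial Pool.Agent.TH132.W

/-- It is not true that for all infinite fields `k` of characteristic different from two and all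
smooth affine integral schemes `X` over `k` the Pfister class of every unramified class in
`K₂(k(X))` is the class modulo `I³(k(X))` of an unramified class in `I²(k(X))`. -/
theorem result :
    ¬ ∀ (k : Type) [Field k] [Infinite k], (2 : k) ≠ 0 →
      ∀ (X : Scheme.{0}) [IsIntegral X] [IsAffine X] (f : X ⟶ Spec (CommRingCat.of k)) [Smooth f]
        (α : MilnorK2 X.functionField), UnramK2 X α →
          ∃ w : WittRing X.functionField, UnramW X w ∧ IsPfisterLift α w := by
  intro H
  let k := FractionRing (ZMod 5)[X]
  let F := FractionRing k[X]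
  let K := FractionRing F[X]
  have h20 : (2 : k) ≠ 0 := by
    have h : (2 : ZMod 5) ≠ 0 := by decide
    have h1 := (map_ne_zero_iff (cK (F := ZMod 5) k) (RingHom.injective _)).2 h
    rwa [map_ofNat] at h1
  have hp : cK (F := ZMod 5) k 2 ≠ 0 :=
    (map_ne_zero_iff _ (RingHom.injective _)).2 (by decide)
  have hr : tv (F := ZMod 5) k ≠ 0 := tv_ne k
  have hi : (cK (F := ZMod 5) k 2) ^ 2 = -1 := by
    rw [← map_pow]
    have : (2 : ZMod 5) ^ 2 = -1 := by decide
    rw [this, map_neg, map_one]
  have hinf : Infinite k := Infinite.of_injective _ (IsFractionRing.injective (ZMod 5)[X] k)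
  have hsm : Smooth (Spec.map (CommRingCat.ofHom
      (strA F K (cK (F := ZMod 5) k 2) (tv (F := ZMod 5) k)))) := by
    rw [HasRingHomProperty.Spec_iff (P := @Smooth)]
    exact smooth_A F K _ _ h20 hp hr
  obtain ⟨w, hw, he⟩ := H k h20 (XS F K (cK (F := ZMod 5) k 2) (tv (F := ZMod 5) k))
    (Spec.map (CommRingCat.ofHom (strA F K (cK (F := ZMod 5) k 2) (tv (F := ZMod 5) k))))
    (alphaS F K _ _ hp hr) (alpha_unram F K _ _ hp hr)
  exact no_lift F K _ _ hi hp hr pfister5 w hw he

end Pool.Agent.Results.MP_a9963e_ag.UnramifiedMilnor
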